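import Pool.Agent.helper60.DK.Spec

/-!
# DK row TR1 (MP_fb2c2a_nt): integer approximation of p-integral rationals
-/

namespace Pool.Agent.helper60.DK

/-- row dk:TR1 -/
theorem TR1 : TR1_stmt := by
  intro p hp x hx
  have hcop : Nat.Coprime x.den (p ^ 2) :=
    Nat.Coprime.pow_right 2 (((Nat.Prime.coprime_iff_not_dvd hp.out).2 hx).symm)
  have hi : IsCoprime (x.den : ℤ) ((p : ℤ) ^ 2) := by
    have h := Nat.isCoprime_iff_coprime.2 hcop
    simpa using h
  obtain ⟨a, b, hab⟩ := hi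
  refine ⟨a * x.num, -(b * x.num), ?_⟩
  have h2 : a * (x.den : ℤ) = 1 - b * (p : ℤ) ^ 2 := by linarith
  calc a * x.num * (x.den : ℤ) - x.num = (a * (x.den : ℤ)) * x.num - x.num := by ring
    _ = (1 - b * (p : ℤ) ^ 2) * x.num - x.num := by rw [h2]
    _ = (p : ℤ) ^ 2 * -(b * x.num) := by ring

end Pool.Agent.helper60.DK
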